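import Mathlib

/-!
Zero loci in quotients of representations of products of general linear groups, and the facts on
their cohomology which are used (MP_d037d4_ag); definitions.
-/

noncomputable section

namespace Pool.H36.NQ

open CategoryTheory AlgebraicGeometry MvPolynomial

/-! ### Frobenius and monodromy -/

/-- `α` is a Weil number of weight `w`: it is algebraic over `ℚ` and all its complex conjugates have
absolute value `q ^ (w / 2)`. -/
def IsWeil {Ω : Type} [Field Ω] [CharZero Ω] (q : ℕ) (α : Ω) (w : ℤ) : Prop :=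
  IsAlgebraic ℚ α ∧
    ∀ z : ℂ, Polynomial.aeval z (minpoly ℚ α) = 0 → ‖z‖ = (q : ℝ) ^ ((w : ℝ) / 2)

section
variable {Ω : Type} [Field Ω] {V V' : Type} [AddCommGroup V] [Module Ω V] [AddCommGroup V']
  [Module Ω V'] (F N : V → V) (gr : ℕ → Submodule Ω V) (p : V → V → Ω) (F' N' : V' → V')
  (gr' : ℕ → Submodule Ω V') (p' : V' → V' → Ω)

/-- For a residue field with `q` elements: `V` is finite-dimensional, `F` is linear and injective, `N`
is linear and nilpotent, `N F = q F N`, the eigenvalues of `F` are Weil numbers, the operators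
preserve the degree, and the pairing is bilinear and symmetric up to sign. -/
def Ok [CharZero Ω] (q : ℕ) : Prop :=
  FiniteDimensional Ω V ∧ IsLinearMap Ω F ∧ IsLinearMap Ω N ∧ (∀ x, IsLinearMap Ω (p x)) ∧
    (∀ y, IsLinearMap Ω fun x => p x y) ∧ (∀ x, F x = 0 → x = 0) ∧ (∃ k, ∀ x, N^[k] x = 0) ∧
    (∀ x, N (F x) = (q : Ω) • F (N x)) ∧
    (∀ (α : Ω) (x : V), x ≠ 0 → F x = α • x → ∃ w : ℤ, IsWeil q α w) ∧
    (∀ i, ∀ x ∈ gr i, F x ∈ gr i ∧ N x ∈ gr i) ∧
    ∀ i j, ∀ x ∈ gr i, ∀ y ∈ gr j, p y x = (-1) ^ (i * j) * p x y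

/-- The pairing is compatible with the operators, for a scheme of dimension `n`. -/
def Eqv (q n : ℕ) : Prop :=
  ∀ x y, p (F x) (F y) = (q : Ω) ^ n * p x y ∧ p (N x) y + p x (N y) = 0

/-- The pairing is perfect, for a scheme of dimension `n`. -/
def Perfect (n : ℕ) : Prop :=
  ∀ i, ∀ x ∈ gr i, (∀ j, i + j = 2 * n → ∀ y ∈ gr j, p x y = 0) → x = 0

/-- Weight-monodromy in degree `i`: for the monodromy filtration `L` of `N` on the elements of degree
`i` (an increasing filtration with `N L_j ⊆ L_(j-2)` such that `N ^ k` is an isomorphism of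
`L_k / L_(k-1)` with `L_(-k) / L_(-k-1)`), the eigenvalues of `F` on the `j`-th graded piece are Weil
numbers of weight `i + j`. -/
def WM [CharZero Ω] (q i : ℕ) : Prop :=
  ∃ L : ℤ → Submodule Ω V, Monotone L ∧ (∃ j, L j = ⊥) ∧ (∃ j, L j = gr i) ∧
    (∀ j, ∀ x ∈ L j, x ∈ gr i ∧ N x ∈ L (j - 2) ∧ F x ∈ L j) ∧
    (∀ k : ℕ, ∀ x ∈ L k, N^[k] x ∈ L (-k - 1) → x ∈ L (k - 1)) ∧
    (∀ k : ℕ, ∀ y ∈ L (-k), ∃ x ∈ L k, y - N^[k] x ∈ L (-k - 1)) ∧
    ∀ j, ∀ x ∈ L j, x ∉ L (j - 1) → ∀ α : Ω, F x - α • x ∈ L (j - 1) → IsWeil q α (i + j)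

/-- `f` is linear of degree `2 r`, and commutes with the monodromy operators, and with the Frobenius
maps up to the factor `q ^ r`. -/
def Commutes (q r : ℕ) (f : V → V') : Prop :=
  IsLinearMap Ω f ∧ ∀ i, ∀ x ∈ gr i, f x ∈ gr' (i + 2 * r) ∧ N' (f x) = f (N x) ∧
    F' (f x) = (q : Ω) ^ r • f (F x)

end

/-- The cohomology of a scheme: a space with a Frobenius `F`, a monodromy operator `N`, the subspaces
`gr i` of the elements of degree `i`, and the intersection pairing `p`. -/
structure Gr (Ω : Type) [Field Ω] where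
  V : ModuleCat.{0} Ω
  F : V → V
  N : V → V
  gr : ℕ → Submodule Ω V
  p : V → V → Ω

section
variable {Ω : Type} [Field Ω] (A B : Gr Ω) (q : ℕ)

/-- `f` is a map of degree `2 r` compatible with the operators. -/
def Gr.Hom (r : ℕ) (f : A.V → B.V) : Prop := Commutes A.F A.N A.gr B.F B.N B.gr q r f

/-- `A` is a direct summand of `B`. -/
def Gr.Summand : Prop := ∃ f g, A.Hom B q 0 f ∧ B.Hom A q 0 g ∧ ∀ x, g (f x) = x

/-- There is a map `A ⟶ B` of degree `2 r`, compatible with the operators, which multiplies the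
pairing by `m`. -/
def Gr.Isom (r : ℕ) (m : ℤ) : Prop :=
  ∃ f, A.Hom B q r f ∧ ∀ x y, B.p (f x) (f y) = m * A.p x y

/-- Weight-monodromy in degree `i`. -/
def Gr.WM [CharZero Ω] (i : ℕ) : Prop := NQ.WM A.F A.N A.gr q i

end

/-! ### Representations -/

/-- The points of affine space. -/
abbrev Pt (K : Type) [Field K] (n : ℕ) : Type := Fin n → AlgebraicClosure K

/-- The square matrices. -/
abbrev Mat (K : Type) [Field K] (r : ℕ) : Type := Matrix (Fin r) (Fin r) (AlgebraicClosure K)

/-- The systems of `c` polynomials. -/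
abbrev Sys (K : Type) [Field K] (c n : ℕ) : Type := Fin c → MvPolynomial (Fin n) K

/-- The group `G` of the invertible `r × r` matrices which are block diagonal acts on the affine
space of dimension `n`: the block `b a` of the row `a`, the numerators `P` of the
matrix coefficients, the exponent `e` of the determinant in the denominator, the weights `wt` of the
coordinates for the torus of the diagonal matrices, and the exponents `θ` of a character of `G`. -/
structure Rep (K : Type) [Field K] (r n : ℕ) where
  b : Fin r → Fin r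
  P : Fin n → Fin n → MvPolynomial (Fin r × Fin r) K
  e : ℕ
  wt : Fin n → Fin r → ℤ
  θ : Fin r → ℤ

section
variable {K : Type} [Field K] {r n c : ℕ} (V : Rep K r n)

/-- The number of the rows of the block `j`. -/
def Rep.k (j : Fin r) : ℕ := Nat.card {a // V.b a = j}

/-- The matrix is in the group. -/
def Rep.InG (g : Mat K r) : Prop := g.det ≠ 0 ∧ ∀ a a', V.b a ≠ V.b a' → g a a' = 0

/-- The action of the group. -/
def Rep.act (g : Mat K r) (M : Pt K n) : Pt K n := fun v =>
  (g.det ^ V.e)⁻¹ * ∑ w, aeval (fun x => g x.1 x.2) (V.P v w) * M w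

/-- The action of the torus. -/
def Rep.tor (t : Pt K r) (M : Pt K n) : Pt K n := fun v => (∏ a, t a ^ V.wt v a) * M v

/-- `M'` is in the orbit of `M` under the group. -/
def Rep.GEq (M M' : Pt K n) : Prop := ∃ g, V.InG g ∧ M' = V.act g M

/-- `M'` is in the orbit of `M` under the torus. -/
def Rep.TEq (M M' : Pt K n) : Prop := ∃ t, (∀ a, t a ≠ 0) ∧ M' = V.tor t M

/-- The weight of a monomial. -/
def Rep.mw (f : Fin n → ℕ) (a : Fin r) : ℤ := ∑ v, f v * V.wt v a

/-- Semistable for the torus: a monomial of weight `N θ`, `N > 0`, does not vanish. -/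
def Rep.TSt (M : Pt K n) : Prop :=
  ∃ (N : ℕ) (f : Fin n → ℕ), 0 < N ∧ (∀ v, f v ≠ 0 → M v ≠ 0) ∧ ∀ a, V.mw f a = N * V.θ (V.b a)

/-- Semistable for the group: all points in the orbit are semistable for the torus. -/
def Rep.GSt (M : Pt K n) : Prop := ∀ M', V.GEq M M' → V.TSt M'

/-- The action is one, the torus acts freely on its semistable points, and the monomials which are
invariant under the torus are constant. -/
def Rep.Good : Prop :=
  (∀ g h M, V.InG g → V.InG h → V.act (g * h) M = V.act g (V.act h M)) ∧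
    (∀ t M, (∀ a, t a ≠ 0) → V.act (Matrix.diagonal t) M = V.tor t M) ∧
    (∀ t M, (∀ a, t a ≠ 0) → V.TSt M → V.tor t M = M → ∀ a, t a = 1) ∧
    ∀ f, (∀ a, V.mw f a = 0) → ∀ v, f v = 0

/-! ### Systems of equations -/

/-- The `i`-th polynomial has weight `d i` for the torus. -/
def Rep.Semi (d : Fin c → Fin r → ℤ) (s : Sys K c n) : Prop :=
  ∀ i f, (s i).coeff f ≠ 0 → ∀ a, V.mw f a = d i a

/-- The point is a zero of the polynomial. -/
def Zero (s : Sys K c n) (M : Pt K n) (i : Fin c) : Prop := aeval M (s i) = 0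

/-- The derivatives of a polynomial at a point. -/
def grad (s : Sys K c n) (M : Pt K n) (i : Fin c) : Pt K n := fun v => aeval M (pderiv v (s i))

/-- The intersection is transversal at the point. -/
def Trans (s : Sys K c n) (M : Pt K n) : Prop :=
  ∀ t : Pt K c, (∀ v, ∑ i, t i * grad s M i v = 0) → ∀ i, t i = 0

/-- The set of the semistable zeros is stable under the group, the group acts freely on it, and it is
a transversal intersection. -/
def Rep.Nice (s : Sys K c n) : Prop :=
  ∀ M, V.GSt M → (∀ i, Zero s M i) → (∀ M', V.GEq M M' → ∀ i, Zero s M' i) ∧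
    (∀ g, V.InG g → V.act g M = M → g = 1) ∧ Trans s M

/-- The polynomials define smooth hypersurfaces in the quotient by the torus, and these intersect
transversally. -/
def Rep.Smooth (s : Sys K c n) : Prop :=
  ∀ M, V.TSt M → ((∀ i, Zero s M i) → Trans s M) ∧ ∀ i, Zero s M i → ∃ v, grad s M i v ≠ 0

/-- The differences of the coefficients are in `B`. -/
def Near (B : Set K) (s s' : Sys K c n) : Prop := ∀ i f, (s' i).coeff f - (s i).coeff f ∈ B

end

/-! ### Schemes -/

/-- The spectrum of the field. -/
def S (K : Type) [Field K] : Scheme.{0} := Spec (CommRingCat.of K)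

/-- The spectrum of the algebraic closure. -/
def Geo (K : Type) [Field K] : Scheme.{0} := Spec (CommRingCat.of (AlgebraicClosure K))

/-- The structure morphism. -/
def geo (K : Type) [Field K] : Geo K ⟶ S K :=
  Spec.map (CommRingCat.ofHom (algebraMap K (AlgebraicClosure K)))

/-- Affine space. -/
def Aff (K : Type) [Field K] (n : ℕ) : Scheme.{0} := Spec (CommRingCat.of (MvPolynomial (Fin n) K))

/-- The structure morphism. -/
def aff (K : Type) [Field K] (n : ℕ) : Aff K n ⟶ S K := Spec.map (CommRingCat.ofHom C)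

/-- `f ≫ g = h`. -/
def Comm {X Y Z : Scheme.{0}} (f : X ⟶ Y) (g : Y ⟶ Z) (h : X ⟶ Z) : Prop := f ≫ g = h

/-- A smooth separated scheme of finite type over the field `K`. -/
structure Sm (K : Type) [Field K] where
  Z : Scheme.{0}
  f : Z ⟶ S K
  smooth : AlgebraicGeometry.Smooth f
  sep : IsSeparated f
  qc : QuasiCompact f

section
variable {K : Type} [Field K] {n c : ℕ} (X X' : Sm K)

/-- The scheme is proper over `K`. -/
def Sm.Proper : Prop := IsProper X.f

/-- The scheme is of dimension `n`. -/
def Sm.Dim (n : ℕ) : Prop := SmoothOfRelativeDimension n X.f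

/-- There is a surjective morphism `X ⟶ X'` over `K`. -/
def Sm.Onto : Prop := ∃ g : X.Z ⟶ X'.Z, Comm g X'.f X.f ∧ Surjective g

/-- A point of affine space as a morphism. -/
def pt (M : Pt K n) : Geo K ⟶ Aff K n := Spec.map (CommRingCat.ofHom (aeval M).toRingHom)

/-- The closed subscheme of affine space defined by the system. -/
def Zer (s : Sys K c n) : Scheme.{0} :=
  Spec (CommRingCat.of (MvPolynomial (Fin n) K ⧸ Ideal.span (Set.range s)))

/-- The inclusion of the closed subscheme. -/
def zer (s : Sys K c n) : Zer s ⟶ Aff K n :=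
  Spec.map (CommRingCat.ofHom (Ideal.Quotient.mk (Ideal.span (Set.range s))))

/-- The scheme `X` is the quotient by the equivalence relation `R` of the open subscheme `Y` of the
zero locus of the system whose points are the common zeros `M` with `P M`. -/
def IsQuot (s : Sys K c n) (P : Pt K n → Prop) (R : Pt K n → Pt K n → Prop) : Prop :=
  ∃ (Y : Scheme.{0}) (j : Y ⟶ Zer s) (l : Y ⟶ Aff K n) (π : Y ⟶ X.Z) (f : Y ⟶ S K),
    LocallyRingedSpace.IsOpenImmersion j.toLRSHom ∧ AlgebraicGeometry.Smooth π ∧
    Comm j (zer s) l ∧ Comm l (aff K n) f ∧ Comm π X.f f ∧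
    (∀ M, (∃ y, Comm y l (pt M)) ↔ P M ∧ ∀ i, Zero s M i) ∧
    (∀ z, Comm z X.f (geo K) → ∃ M y, Comm y l (pt M) ∧ Comm y π z) ∧
    ∀ M M' y y' z z', Comm y l (pt M) → Comm y' l (pt M') → Comm y π z → Comm y' π z' →
      (z = z' ↔ R M M')

end

/-- Textbook facts on quotients over a field of characteristic `0`: the quotient by the torus of the
set of the zeros which are semistable for the group, and of the set of the zeros which are semistable
for the torus. -/
def Geometry (K : Type) [Field K] : Prop :=
  ∀ (r n c : ℕ) (V : Rep K r n) (d : Fin c → Fin r → ℤ) (s : Sys K c n),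
    V.Good → V.Semi d s → (V.Nice s → ∃ U, IsQuot U s V.GSt V.TEq) ∧
      (V.Smooth s → ∃ W, IsQuot W s V.TSt V.TEq ∧ W.Proper ∧ W.Dim (n - (r + c)))

/-! ### Cohomology -/

section
variable {K : Type} [Field K] {Ω : Type} [Field Ω] [CharZero Ω] (q : ℕ) (H : Sm K → Gr Ω)

/-- `H` is a cohomology theory with compact support for smooth separated schemes over `K`. -/
def IsTheory : Prop :=
  ∀ Z, Ok (H Z).F (H Z).N (H Z).gr (H Z).p q ∧
    ∀ n, Z.Dim n → Eqv (H Z).F (H Z).N (H Z).p q n ∧ (Z.Proper → Perfect (H Z).gr (H Z).p n)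

/-- Known facts on the `p`-adic (Hyodo-Kato) cohomology and on the `l`-adic cohomology over a local
field of characteristic `0`; the sets `B e` are the powers of the maximal ideal.

* For a surjective morphism `X ⟶ X'` of proper schemes the cohomology of `X'` is a direct summand of
  the cohomology of `X`.
* The scheme `U` is a bundle of affine spaces over the bundle of complete flags of the torsor over
  `X`.  The product with its Thom class multiplies the intersection pairing by the degree of the top
  Chern class of the relative cotangent bundle of the bundle of flags over `X`.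
* The scheme `U` is an open subscheme of the zero locus of the system in the toric variety.  The
  cohomology of this locus is the limit of the cohomology of the tubes around it, and a tube contains
  the zero loci `W` of all systems close to the given one.  So we get a map from the cohomology with
  compact support of `U` to the cohomology of `W`; it preserves the intersection pairing.
* Weight-monodromy for smooth intersections of smooth hypersurfaces in smooth projective toric
  varieties (Scholze; Binda, Kato and Vezzani). -/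
def Facts (B : ℕ → Set K) : Prop :=
  (∀ X X' : Sm K, X.Proper → X'.Proper → X.Onto X' → (H X').Summand (H X) q) ∧
  ∀ (r n c : ℕ) (V : Rep K r n) (d : Fin c → Fin r → ℤ) (s : Sys K c n),
    V.Good → V.Semi d s →
    (V.Nice s → ∀ U, IsQuot U s V.GSt V.TEq →
      (∀ X, X.Proper → IsQuot X s V.GSt V.GEq → (H X).Isom (H U) q (∑ j, (V.k j).choose 2)
        ((-1) ^ (∑ j, (V.k j).choose 2) * ∏ j, ((V.k j).factorial : ℤ))) ∧
      ∃ e : ℕ, ∀ s' W, V.Semi d s' → Near (B e) s s' → V.Smooth s' → W.Proper → IsQuot W s' V.TSt V.TEq →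
        (H U).Isom (H W) q 0 1) ∧
    (V.Smooth s → ∀ W, W.Proper → IsQuot W s V.TSt V.TEq → ∀ i, (H W).WM q i)

end

/-- The powers of the maximal ideal of the valuation ring `O` of `K`. -/
def ball (O K : Type) [CommRing O] [Field K] [Algebra O K] (e : ℕ) : Set K :=
  {y | ∃ ϖ x : O, Irreducible ϖ ∧ y = algebraMap O K (ϖ ^ e * x)}

end Pool.H36.NQ

end
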