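import Pool.Agent.H36.NQ.Defs
import Pool.Agent.H87.GS.Main

/-!
Weight-monodromy for zero loci in quotients of representations (MP_d037d4_ag), from
`Pool.Agent.H87.GS.Main`.
-/

noncomputable section

namespace Pool.H36.NQ

open CategoryTheory AlgebraicGeometry Pool.H9.WMC

section
variable {q : ℕ} {Ω : Type} [Field Ω] [CharZero Ω]

section
variable {V : Type} [AddCommGroup V] [Module Ω V] {F N : V → V} {gr : ℕ → Submodule Ω V} {i : ℕ}
  {F' N' : gr i →ₗ[Ω] gr i}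

omit [CharZero Ω] in
theorem sub_pow (hN : ∀ x, (N' x : V) = N x) (k : ℕ) (x : gr i) : (((N' ^ k) x : gr i) : V) =
    N^[k] x := by
  induction k with
  | zero => rfl
  | succ k ih => rw [pow_succ', Module.End.mul_apply, Function.iterate_succ_apply', ← ih, hN]

theorem wm_sub (hF : ∀ x, (F' x : V) = F x) (hN : ∀ x, (N' x : V) = N x) :
    WM F N gr q i ↔ ∃ L : ℤ → Submodule Ω (gr i), Pool.H73.WM.IsMonodromyFiltration N' L ∧
      (∀ j, ∀ x ∈ L j, F' x ∈ L j) ∧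
      ∀ j, ∀ x ∈ L j, x ∉ L (j - 1) → ∀ α : Ω, F' x - α • x ∈ L (j - 1) →
        Pool.H73.WM.IsWeil q α (i + j) := by
  constructor
  · rintro ⟨L, h1, ⟨j, h2⟩, ⟨j', h3⟩, h4, h5, h6, h7⟩
    refine ⟨fun j => (L j).comap (gr i).subtype, ⟨?_, ⟨j, ?_⟩, ⟨j', ?_⟩, ?_, ?_, ?_⟩, ?_, ?_⟩
    · exact fun a b hab => Submodule.comap_mono (h1 hab)
    · simp only [h2, Submodule.comap_bot, Submodule.ker_subtype]
    · simp only [h3, Submodule.comap_subtype_self]
    · intro j x hx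
      have := (h4 j _ hx).2.1
      rw [Submodule.mem_comap, Submodule.subtype_apply, hN]
      exact this
    · intro k x hx hx'
      rw [Submodule.mem_comap, Submodule.subtype_apply, sub_pow hN] at hx'
      exact h5 k _ hx hx'
    · intro k y hy
      obtain ⟨x, hx, hxy⟩ := h6 k _ hy
      refine ⟨⟨x, (h4 _ x hx).1⟩, hx, ?_⟩
      rw [Submodule.mem_comap, Submodule.subtype_apply, Submodule.coe_sub, sub_pow hN]
      exact hxy
    · intro j x hx
      have := (h4 j _ hx).2.2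
      rw [Submodule.mem_comap, Submodule.subtype_apply, hF]
      exact this
    · intro j x hx hx' α hα
      rw [Submodule.mem_comap, Submodule.subtype_apply, Submodule.coe_sub, Submodule.coe_smul,
        hF] at hα
      exact h7 j _ hx hx' α hα
  · rintro ⟨L, ⟨h1, ⟨j, h2⟩, ⟨j', h3⟩, h4, h5, h6⟩, h7, h8⟩
    have hm : ∀ (j : ℤ) (x : V), x ∈ (L j).map (gr i).subtype ↔
        ∃ hx : x ∈ gr i, (⟨x, hx⟩ : gr i) ∈ L j := by
      intro j x
      rw [Submodule.mem_map]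
      constructor
      · rintro ⟨y, hy, rfl⟩
        exact ⟨y.2, hy⟩
      · rintro ⟨hx, hx'⟩
        exact ⟨_, hx', rfl⟩
    refine ⟨fun j => (L j).map (gr i).subtype, ?_, ⟨j, ?_⟩, ⟨j', ?_⟩, ?_, ?_, ?_, ?_⟩
    · exact fun a b hab => Submodule.map_mono (h1 hab)
    · simp only [h2, Submodule.map_bot]
    · simp only [h3, Submodule.map_subtype_top]
    · intro j x hx
      obtain ⟨hx1, hx2⟩ := (hm j x).1 hx
      refine ⟨hx1, ?_, ?_⟩
      · rw [hm, ← hN ⟨x, hx1⟩]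
        exact ⟨Subtype.property _, h4 j _ hx2⟩
      · rw [hm, ← hF ⟨x, hx1⟩]
        exact ⟨Subtype.property _, h7 j _ hx2⟩
    · intro k x hx hx'
      obtain ⟨hx1, hx2⟩ := (hm _ x).1 hx
      obtain ⟨hx3, hx4⟩ := (hm _ _).1 hx'
      refine (hm _ _).2 ⟨hx1, h5 k _ hx2 ?_⟩
      have h9 : (N' ^ k) ⟨x, hx1⟩ = (⟨N^[k] x, hx3⟩ : gr i) :=
        Subtype.ext (sub_pow hN k ⟨x, hx1⟩)
      rw [h9]
      exact hx4
    · intro k y hy
      obtain ⟨hy1, hy2⟩ := (hm _ _).1 hy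
      obtain ⟨x, hx, hxy⟩ := h6 k _ hy2
      refine ⟨x.1, (hm _ _).2 ⟨x.2, hx⟩, ?_⟩
      have h10 : ((⟨y, hy1⟩ - (N' ^ k) x : gr i) : V) = y - N^[k] x.1 := by
        rw [Submodule.coe_sub, sub_pow hN]
      rw [hm, ← h10]
      exact ⟨Subtype.property _, hxy⟩
    · intro j x hx hx' α hα
      obtain ⟨hx1, hx2⟩ := (hm _ _).1 hx
      refine h8 j _ hx2 (fun h9 => hx' ((hm _ _).2 ⟨hx1, h9⟩)) α ?_
      have h10 : ((F' ⟨x, hx1⟩ - α • ⟨x, hx1⟩ : gr i) : V) = F x - α • x := by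
        rw [Submodule.coe_sub, hF, Submodule.coe_smul]
      rw [← h10, hm] at hα
      exact hα.2

end

/-- The part of degree `i`. -/
def fn (A : Gr Ω) (h : Ok A.F A.N A.gr A.p q) (i : ℕ) : FN q Ω :=
  haveI : FiniteDimensional Ω A.V := h.1
  { V := A.gr i
    F := (IsLinearMap.mk' A.F h.2.1).restrict fun x hx => (h.2.2.2.2.2.2.2.2.2.1 i x hx).1
    N := (IsLinearMap.mk' A.N h.2.2.1).restrict fun x hx => (h.2.2.2.2.2.2.2.2.2.1 i x hx).2
    F_inj := fun x hx => Subtype.ext (h.2.2.2.2.2.1 x.1 (congrArg Subtype.val hx))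
    N_nilp := by
      obtain ⟨k, hk⟩ := h.2.2.2.2.2.2.1
      refine ⟨k, LinearMap.ext fun x => Subtype.ext ?_⟩
      rw [sub_pow (N := A.N) (fun x => rfl), hk]
      rfl
    NF := fun x => Subtype.ext (h.2.2.2.2.2.2.2.1 x.1)
    mixed := fun α x hx0 hx => h.2.2.2.2.2.2.2.2.1 α x.1 (fun h0 => hx0 (Subtype.ext h0))
      (congrArg Subtype.val hx) }

theorem wm_fn (A : Gr Ω) (h : Ok A.F A.N A.gr A.p q) (i : ℕ) : A.WM q i ↔ (fn A h i).WM i :=
  wm_sub (F := A.F) (N := A.N) (gr := A.gr) (i := i)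
    (F' := (IsLinearMap.mk' A.F h.2.1).restrict fun x hx => (h.2.2.2.2.2.2.2.2.2.1 i x hx).1)
    (N' := (IsLinearMap.mk' A.N h.2.2.1).restrict fun x hx => (h.2.2.2.2.2.2.2.2.2.1 i x hx).2)
    (fun _ => rfl) (fun _ => rfl)

/-- The pairing between the parts of degree `i` and `j`. -/
def pr (A : Gr Ω) (h : Ok A.F A.N A.gr A.p q) (i j : ℕ) : A.gr i →ₗ[Ω] A.gr j →ₗ[Ω] Ω :=
  LinearMap.mk₂ Ω (fun x y => A.p x y) (fun x x' y => (h.2.2.2.2.1 y.1).map_add x.1 x'.1)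
    (fun c x y => (h.2.2.2.2.1 y.1).map_smul c x.1)
    (fun x y y' => (h.2.2.2.1 x.1).map_add y.1 y'.1)
    (fun c x y => (h.2.2.2.1 x.1).map_smul c y.1)

theorem pr_apply (A : Gr Ω) (h : Ok A.F A.N A.gr A.p q) (i j : ℕ) (x : A.gr i) (y : A.gr j) :
    pr A h i j x y = A.p x y := rfl

/-- The map of the parts of degree `i`. -/
def ma {A B : Gr Ω} {r : ℕ} {f : A.V → B.V} (hf : A.Hom B q r f) (i : ℕ) :
    A.gr i →ₗ[Ω] B.gr (i + 2 * r) :=
  (IsLinearMap.mk' f hf.1).restrict fun x hx => (hf.2 i x hx).1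

end

/-! ### Dimensions -/

theorem sum_k {K : Type} [Field K] {r n : ℕ} (V : Rep K r n) : ∑ j, V.k j = r := by
  have h1 : ∑ j, V.k j = Nat.card (Σ j, {a // V.b a = j}) := by
    rw [Nat.card_sigma]
    rfl
  rw [h1, Nat.card_congr (Equiv.sigmaFiberEquiv V.b), Nat.card_eq_fintype_card, Fintype.card_fin]

/-- Weight-monodromy for zero loci in quotients of representations. -/
theorem wm_quot {Ω : Type} [Field Ω] [CharZero Ω] [IsAlgClosed Ω] {K : Type} [Field K] {q : ℕ}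
    (hq : 1 < q) {B : ℕ → Set K} {H : Sm K → Gr Ω} (G : Geometry K) (hH : IsTheory q H)
    (hF : Facts q H B) {r n c : ℕ} (V : Rep K r n) (hV : V.Good) (d : Fin c → Fin r → ℤ)
    (s : Sys K c n) (hs : V.Semi d s) (hn : V.Nice s)
    (hl : ∀ e, ∃ s', V.Semi d s' ∧ V.Smooth s' ∧ Near (B e) s s')
    (hc : ∑ j, V.k j ^ 2 + c ≤ n) (X : Sm K) (hX : IsQuot X s V.GSt V.GEq) (hp : X.Proper)
    (hd : X.Dim (n - (∑ j, V.k j ^ 2 + c))) (i : ℕ) : (H X).WM q i := by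
  obtain ⟨U, hU⟩ := (G r n c V d s hV hs).1 hn
  obtain ⟨h1, e, h2⟩ := (hF.2 r n c V d s hV hs).1 hn U hU
  obtain ⟨f, hf, hfp⟩ := h1 X hp hX
  obtain ⟨s', hs', hsm, hnear⟩ := hl e
  obtain ⟨W, hW, hWp, hWd⟩ := (G r n c V d s' hV hs').2 hsm
  obtain ⟨g, hg, hgp⟩ := h2 s' W hs' hnear hsm hWp hW
  obtain ⟨okX, hX2⟩ := hH X
  obtain ⟨okW, hW2⟩ := hH W
  have hwm := (wm_fn _ okW _).1
    ((hF.2 r n c V d s' hV hs').2 hsm W hWp hW (i + 2 * (∑ j, (V.k j).choose 2) + 2 * 0))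
  rw [wm_fn _ okX]
  generalize hfl : ∑ j, (V.k j).choose 2 = fl at *
  generalize hdx : n - (∑ j, V.k j ^ 2 + c) = dx at *
  have hdim : n - (r + c) = dx + 2 * fl := by
    have := Pool.H87.GS.dim_eq V.k
    rw [sum_k, hfl] at this
    omega
  have hm : (((-1) ^ fl * ∏ j, ((V.k j).factorial : ℤ) : ℤ) : Ω) ≠ 0 := by
    have : (-1) ^ fl * ∏ j, ((V.k j).factorial : ℤ) ≠ 0 := by
      refine mul_ne_zero (pow_ne_zero _ (by norm_num)) ?_
      refine Finset.prod_ne_zero_iff.2 fun l _ => ?_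
      exact_mod_cast (Nat.factorial_pos _).ne'
    exact_mod_cast this
  generalize (-1) ^ fl * ∏ j, ((V.k j).factorial : ℤ) = m at *
  obtain ⟨hXe, hXp⟩ := hX2 dx hd
  have hXp := hXp hp
  obtain ⟨hWe, _⟩ := hW2 (dx + 2 * fl) (hdim ▸ hWd)
  have hJF : ∀ i (x : (H X).gr i), (H W).F (g (f x)) = (q : Ω) ^ fl • g (f ((H X).F x)) := by
    intro i x
    have e1 := (hf.2 i x.1 x.2).2.2
    have e2 := (hg.2 _ _ (hf.2 i x.1 x.2).1).2.2
    rw [e2, pow_zero, one_smul, e1, hg.1.map_smul]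
  have hJN : ∀ i (x : (H X).gr i), (H W).N (g (f x)) = g (f ((H X).N x)) := by
    intro i x
    rw [(hg.2 _ _ (hf.2 i x.1 x.2).1).2.1, (hf.2 i x.1 x.2).2.1]
  by_cases hi : i ≤ 2 * dx
  · obtain ⟨j, hj⟩ := Nat.exists_eq_add_of_le hi
    refine Pool.H87.GS.wm_of_isometry hq (fn (H X) okX i) (fn (H X) okX j)
      (fn (H W) okW (i + 2 * fl + 2 * 0)) (fn (H W) okW (j + 2 * fl + 2 * 0)) fl dx i
      (pr (H X) okX i j) (pr (H W) okW _ _) (ma hg _ ∘ₗ ma hf i) (ma hg _ ∘ₗ ma hf j) (m : Ω) hm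
      ?_ ?_ ?_ ?_ ?_ ?_ ?_ ?_ ?_ ?_ ?_ ?_
    · exact fun x y => (hXe x.1 y.1).1
    · exact fun x y => (hXe x.1 y.1).2
    · intro x hx
      refine Subtype.ext (hXp i x.1 x.2 fun j' hj' y hy => ?_)
      obtain rfl : j' = j := by omega
      exact hx ⟨y, hy⟩
    · intro y hy
      refine Subtype.ext (hXp j y.1 y.2 fun i' hi' x hx => ?_)
      obtain rfl : i' = i := by omega
      have h3 : (H X).p x y.1 = 0 := hy ⟨x, hx⟩
      rw [okX.2.2.2.2.2.2.2.2.2.2 i' j x hx y.1 y.2, h3, mul_zero]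
    · exact fun x y => (hWe x.1 y.1).1
    · exact fun x y => (hWe x.1 y.1).2
    · exact fun x => Subtype.ext (hJF i x)
    · exact fun x => Subtype.ext (hJN i x)
    · exact fun x => Subtype.ext (hJF j x)
    · exact fun x => Subtype.ext (hJN j x)
    · intro x y
      have h3 := hgp (f x.1) (f y.1)
      rw [hfp, Int.cast_one, one_mul] at h3
      exact h3
    · push_cast at hwm
      simpa using hwm
  · have hz : ∀ x : (H X).gr i, x = 0 := by
      intro x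
      refine Subtype.ext (hXp i x.1 x.2 fun j hj => ?_)
      omega
    refine Pool.H87.GS.wm_of_retract hq (fn (H X) okX i)
      (fn (H W) okW (i + 2 * fl + 2 * 0)) fl i 0 0 ?_ ?_ ?_ ?_ ?_ ?_
    · intro x
      exact (hz x).symm ▸ rfl
    · intro x
      simp
    · intro x
      simp
    · intro y
      simp
    · intro y
      simp
    · push_cast at hwm
      simpa using hwm

/-- Weight-monodromy for varieties dominated by zero loci in quotients of representations. -/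
theorem main {Ω : Type} [Field Ω] [CharZero Ω] [IsAlgClosed Ω] {K : Type} [Field K] {q : ℕ}
    (hq : 1 < q) {B : ℕ → Set K} {H : Sm K → Gr Ω} (G : Geometry K) (hH : IsTheory q H)
    (hF : Facts q H B) {r n c : ℕ} (V : Rep K r n) (hV : V.Good) (d : Fin c → Fin r → ℤ)
    (s : Sys K c n) (hs : V.Semi d s) (hn : V.Nice s)
    (hl : ∀ e, ∃ s', V.Semi d s' ∧ V.Smooth s' ∧ Near (B e) s s')
    (hc : ∑ j, V.k j ^ 2 + c ≤ n) (X X' : Sm K) (hX : IsQuot X s V.GSt V.GEq) (hp : X.Proper)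
    (hd : X.Dim (n - (∑ j, V.k j ^ 2 + c))) (hp' : X'.Proper) (hg : X.Onto X') (i : ℕ) :
    (H X').WM q i := by
  obtain ⟨f, g, hf, hg', hgf⟩ := hF.1 X X' hp hp' hg
  obtain ⟨okX, -⟩ := hH X
  obtain ⟨okX', -⟩ := hH X'
  have h1 := wm_quot hq G hH hF V hV d s hs hn hl hc X hX hp hd i
  rw [wm_fn _ okX] at h1
  rw [wm_fn _ okX']
  refine Pool.H87.GS.wm_of_retract hq (fn (H X') okX' i) (fn (H X) okX i) 0 i (ma hf i)
    (ma hg' i) ?_ ?_ ?_ ?_ ?_ ?_
  · exact fun x => Subtype.ext (hgf x.1)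
  · exact fun x => Subtype.ext (hf.2 i x.1 x.2).2.2
  · exact fun x => Subtype.ext (hf.2 i x.1 x.2).2.1
  · intro y
    have h2 := (hg'.2 i y.1 y.2).2.2
    refine Subtype.ext ?_
    change g ((H X).F y.1) = (q : Ω) ^ 0 • (H X').F (g y.1)
    rw [h2, pow_zero, one_smul, one_smul]
  · exact fun y => Subtype.ext (hg'.2 i y.1 y.2).2.1.symm
  · simpa using h1

end Pool.H36.NQ

end
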